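import Mathlib

/-! Permutation classes, one-point amalgamation and splittings. -/

set_option autoImplicit false

namespace Pool.Agent.Q281.PA

/-- a finite permutation of any size -/
abbrev FPerm := Σ n : ℕ, Equiv.Perm (Fin n)

/-- `f` is an embedding of the permutation `a` into the permutation `b`: it preserves the position
order and the value order (both are total orders, so `f` is injective) -/
def IsEmb (a b : FPerm) (f : Fin a.1 → Fin b.1) : Prop :=
  (∀ i j, i < j ↔ f i < f j) ∧ ∀ i j, a.2 i < a.2 j ↔ b.2 (f i) < b.2 (f j)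

/-- a permutation class: a set of permutations closed under containment -/
def IsPermClass (C : Set FPerm) : Prop :=
  ∀ (a b : FPerm) (f : Fin a.1 → Fin b.1), IsEmb a b f → b ∈ C → a ∈ C

/-- `C` is `α`-amalgamable -/
def Amalgamable (C : Set FPerm) (α : FPerm) : Prop :=
  ∀ β ∈ C, ∀ γ ∈ C, ∀ (f : Fin α.1 → Fin β.1) (g : Fin α.1 → Fin γ.1),
    IsEmb α β f → IsEmb α γ g →
    ∃ δ ∈ C, ∃ (f' : Fin β.1 → Fin δ.1) (g' : Fin γ.1 → Fin δ.1),
      IsEmb β δ f' ∧ IsEmb γ δ g' ∧ ∀ i, f' (f i) = g' (g i)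

/-- `C` is `1`-amalgamable: `α`-amalgamable for every `α` in `C` of size at most one -/
def OneAmalgamable (C : Set FPerm) : Prop := ∀ α ∈ C, α.1 ≤ 1 → Amalgamable C α

/-- `π` belongs to the product `A 0 ⊙ A 1 ⊙ ...`: its entries can be coloured so that the entries of
colour `j` form a pattern in `A j` -/
def InMerge {k : ℕ} (A : Fin k → Set FPerm) (π : FPerm) : Prop :=
  ∃ c : Fin π.1 → Fin k, ∀ j, ∃ σ ∈ A j, ∃ h : Fin σ.1 → Fin π.1,
    IsEmb σ π h ∧ Set.range h = {i | c i = j}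

/-- `C` is splittable: it has a nontrivial splitting -/
def Splittable (C : Set FPerm) : Prop :=
  ∃ (k : ℕ) (A : Fin k → Set FPerm), 1 ≤ k ∧ (∀ j, IsPermClass (A j)) ∧
    (∀ π ∈ C, InMerge A π) ∧ ∀ j, ¬ C ⊆ A j

end Pool.Agent.Q281.PA
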