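import Pool.Agent.Q281.PA.Defs

/-! Self-similar point sets whose finite patterns form `1`-amalgamable splittable classes. -/

set_option autoImplicit false

namespace Pool.Agent.Q281.PA

/-- the type of points: finite sequences of blocks, ended by a final symbol -/
inductive M : Type
  | fin (s : ℤ) : M
  | blk (p : ℤ) (m : M) : M

namespace M

/-- the position of a point -/
def pos (W : ℕ) : M → List ℤ
  | fin s => [2 * (s + W) + 1]
  | blk p m => (2 * p) :: pos W m

/-- the value of a point -/
def val : M → List ℤ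
  | fin s => [-(2 * s) + 1]
  | blk p m => (-(2 * p)) :: val m

/-- the colour of a point: the parity of the final symbol -/
def col : M → ℤ
  | fin s => s % 2
  | blk _ m => col m

theorem pos_inj (W : ℕ) : Function.Injective (pos W) := by
  intro x
  induction x with
  | fin s =>
    intro y h
    cases y with
    | fin t => simp only [pos, List.cons.injEq, and_true] at h; congr 1; omega
    | blk p m => simp only [pos, List.cons.injEq] at h; omega
  | blk p m ih =>
    intro y h
    cases y with
    | fin t => simp only [pos, List.cons.injEq] at h; omega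
    | blk p' m' =>
      simp only [pos, List.cons.injEq] at h
      obtain ⟨h1, h2⟩ := h
      have : p = p' := by omega
      subst this
      rw [ih h2]

theorem val_inj : Function.Injective val := by
  intro x
  induction x with
  | fin s =>
    intro y h
    cases y with
    | fin t => simp only [val, List.cons.injEq, and_true] at h; congr 1; omega
    | blk p m => simp only [val, List.cons.injEq] at h; omega
  | blk p m ih =>
    intro y h
    cases y with
    | fin t => simp only [val, List.cons.injEq] at h; omega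
    | blk p' m' =>
      simp only [val, List.cons.injEq] at h
      obtain ⟨h1, h2⟩ := h
      have : p = p' := by omega
      subst this
      rw [ih h2]

theorem pos_ff (W : ℕ) (s t : ℤ) : pos W (fin s) < pos W (fin t) ↔ s < t := by
  simp only [pos, List.cons_lt_cons_iff]
  constructor
  · rintro (h | ⟨_, h⟩)
    · omega
    · exact absurd h (lt_irrefl _)
  · intro h; left; omega

theorem pos_fb (W : ℕ) (s p : ℤ) (m : M) : pos W (fin s) < pos W (blk p m) ↔ s + W < p := by
  simp only [pos, List.cons_lt_cons_iff]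
  constructor
  · rintro (h | ⟨h, _⟩)
    · omega
    · omega
  · intro h; left; omega

theorem pos_bf (W : ℕ) (s p : ℤ) (m : M) : pos W (blk p m) < pos W (fin s) ↔ p ≤ s + W := by
  simp only [pos, List.cons_lt_cons_iff]
  constructor
  · rintro (h | ⟨h, _⟩)
    · omega
    · omega
  · intro h; left; omega

theorem pos_bb (W : ℕ) (p p' : ℤ) (m m' : M) :
    pos W (blk p m) < pos W (blk p' m') ↔ p < p' ∨ (p = p' ∧ pos W m < pos W m') := by
  simp only [pos, List.cons_lt_cons_iff]
  constructor
  · rintro (h | ⟨h, h'⟩)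
    · left; omega
    · right; exact ⟨by omega, h'⟩
  · rintro (h | ⟨h, h'⟩)
    · left; omega
    · right; exact ⟨by omega, h'⟩

theorem val_ff (s t : ℤ) : val (fin s) < val (fin t) ↔ t < s := by
  simp only [val, List.cons_lt_cons_iff]
  constructor
  · rintro (h | ⟨_, h⟩)
    · omega
    · exact absurd h (lt_irrefl _)
  · intro h; left; omega

theorem val_fb (s p : ℤ) (m : M) : val (fin s) < val (blk p m) ↔ p < s := by
  simp only [val, List.cons_lt_cons_iff]
  constructor
  · rintro (h | ⟨h, _⟩)
    · omega
    · omega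
  · intro h; left; omega

theorem val_bf (s p : ℤ) (m : M) : val (blk p m) < val (fin s) ↔ s ≤ p := by
  simp only [val, List.cons_lt_cons_iff]
  constructor
  · rintro (h | ⟨h, _⟩)
    · omega
    · omega
  · intro h; left; omega

theorem val_bb (p p' : ℤ) (m m' : M) :
    val (blk p m) < val (blk p' m') ↔ p' < p ∨ (p = p' ∧ val m < val m') := by
  simp only [val, List.cons_lt_cons_iff]
  constructor
  · rintro (h | ⟨h, h'⟩)
    · left; omega
    · right; exact ⟨by omega, h'⟩
  · rintro (h | ⟨h, h'⟩)
    · left; omega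
    · right; exact ⟨by omega, h'⟩

/-- a self-embedding of the point set -/
def SE (W : ℕ) (e : M → M) : Prop :=
  (∀ x y, pos W x < pos W y ↔ pos W (e x) < pos W (e y)) ∧
    ∀ x y, val x < val y ↔ val (e x) < val (e y)

theorem SE_id (W : ℕ) : SE W id := ⟨fun _ _ => Iff.rfl, fun _ _ => Iff.rfl⟩

theorem SE_comp {W : ℕ} {e e' : M → M} (h : SE W e) (h' : SE W e') : SE W (e ∘ e') :=
  ⟨fun x y => (h'.1 x y).trans (h.1 _ _), fun x y => (h'.2 x y).trans (h.2 _ _)⟩

theorem SE_blk (W : ℕ) (a : ℤ) : SE W (blk a) :=
  ⟨fun x y => by simp [pos_bb], fun x y => by simp [val_bb]⟩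

/-- translation -/
def tr (τ : ℤ) : M → M
  | fin s => fin (s + τ)
  | blk p m => blk (p + τ) m

theorem SE_tr (W : ℕ) (τ : ℤ) : SE W (tr τ) := by
  constructor
  · intro x y
    cases x <;> cases y <;> simp only [tr, pos_ff, pos_fb, pos_bf, pos_bb]
    · omega
    · omega
    · omega
    · rename_i p m p' m'
      constructor
      · rintro (h | ⟨h, h'⟩)
        · left; omega
        · right; exact ⟨by omega, h'⟩
      · rintro (h | ⟨h, h'⟩)
        · left; omega
        · right; exact ⟨by omega, h'⟩
  · intro x y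
    cases x <;> cases y <;> simp only [tr, val_ff, val_fb, val_bf, val_bb]
    · omega
    · omega
    · omega
    · rename_i p m p' m'
      constructor
      · rintro (h | ⟨h, h'⟩)
        · left; omega
        · right; exact ⟨by omega, h'⟩
      · rintro (h | ⟨h, h'⟩)
        · left; omega
        · right; exact ⟨by omega, h'⟩

/-- apply `e` inside the block `a` -/
def ins (a : ℤ) (e : M → M) : M → M
  | fin s => fin s
  | blk p m => if p = a then blk a (e m) else blk p m

theorem SE_ins {W : ℕ} (a : ℤ) {e : M → M} (h : SE W e) : SE W (ins a e) := by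
  constructor
  · intro x y
    cases x with
    | fin s =>
      cases y with
      | fin t => simp only [ins]
      | blk p m =>
        by_cases hp : p = a
        · subst hp; simp only [ins, if_true, pos_fb]
        · simp only [ins, if_neg hp]
    | blk p m =>
      cases y with
      | fin t =>
        by_cases hp : p = a
        · subst hp; simp only [ins, if_true, pos_bf]
        · simp only [ins, if_neg hp]
      | blk p' m' =>
        by_cases hp : p = a
        · subst hp
          by_cases hp' : p' = p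
          · subst hp'
            simp only [ins, if_true, pos_bb]
            rw [h.1 m m']
          · simp only [ins, if_true, if_neg hp', pos_bb]
            constructor
            · rintro (h1 | ⟨h1, _⟩)
              · exact Or.inl h1
              · exact absurd h1.symm hp'
            · rintro (h1 | ⟨h1, _⟩)
              · exact Or.inl h1
              · exact absurd h1.symm hp'
        · by_cases hp' : p' = a
          · subst hp'
            simp only [ins, if_true, if_neg hp, pos_bb]
            constructor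
            · rintro (h1 | ⟨h1, _⟩)
              · exact Or.inl h1
              · exact absurd h1 hp
            · rintro (h1 | ⟨h1, _⟩)
              · exact Or.inl h1
              · exact absurd h1 hp
          · simp only [ins, if_neg hp, if_neg hp']
  · intro x y
    cases x with
    | fin s =>
      cases y with
      | fin t => simp only [ins]
      | blk p m =>
        by_cases hp : p = a
        · subst hp; simp only [ins, if_true, val_fb]
        · simp only [ins, if_neg hp]
    | blk p m =>
      cases y with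
      | fin t =>
        by_cases hp : p = a
        · subst hp; simp only [ins, if_true, val_bf]
        · simp only [ins, if_neg hp]
      | blk p' m' =>
        by_cases hp : p = a
        · subst hp
          by_cases hp' : p' = p
          · subst hp'
            simp only [ins, if_true, val_bb]
            rw [h.2 m m']
          · simp only [ins, if_true, if_neg hp', val_bb]
            constructor
            · rintro (h1 | ⟨h1, _⟩)
              · exact Or.inl h1
              · exact absurd h1.symm hp'
            · rintro (h1 | ⟨h1, _⟩)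
              · exact Or.inl h1
              · exact absurd h1.symm hp'
        · by_cases hp' : p' = a
          · subst hp'
            simp only [ins, if_true, if_neg hp, val_bb]
            constructor
            · rintro (h1 | ⟨h1, _⟩)
              · exact Or.inl h1
              · exact absurd h1 hp
            · rintro (h1 | ⟨h1, _⟩)
              · exact Or.inl h1
              · exact absurd h1 hp
          · simp only [ins, if_neg hp, if_neg hp']

/-- any two points can be identified by two self-embeddings -/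
theorem homog (W : ℕ) : ∀ x y : M, ∃ e1 e2 : M → M, SE W e1 ∧ SE W e2 ∧ e1 x = e2 y := by
  intro x
  induction x with
  | fin s =>
    intro y
    induction y with
    | fin t => exact ⟨id, tr (s - t), SE_id W, SE_tr W _, by simp [tr]⟩
    | blk b y ih =>
      obtain ⟨e1, e2, h1, h2, h⟩ := ih
      exact ⟨blk b ∘ e1, ins b e2, SE_comp (SE_blk W b) h1, SE_ins b h2, by simp [ins, h]⟩
  | blk a x ih =>
    intro y
    obtain ⟨e1, e2, h1, h2, h⟩ := ih y
    exact ⟨ins a e1, blk a ∘ e2, SE_ins a h1, SE_comp (SE_blk W a) h2, by simp [ins, h]⟩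

/-- the key lemma: the points above a point which form a decreasing sequence -/
theorem key (W : ℕ) (n : ℕ) : ∀ (Q : M) (U : ℕ → M),
    (∀ j ≤ n, pos W Q < pos W (U j) ∧ val Q < val (U j)) →
    (∀ i j, i < j → j ≤ n → pos W (U i) < pos W (U j) ∧ val (U j) < val (U i)) →
    ∃ (p : ℤ) (s : ℕ → ℤ), (∀ j ≤ n, p - W ≤ s j ∧ s j ≤ p ∧ col (U j) = s j % 2) ∧
      ∀ i j, i < j → j ≤ n → s i < s j := by
  intro Q
  induction Q with
  | fin s =>
    intro U h _
    exfalso
    obtain ⟨h1, h2⟩ := h 0 (Nat.zero_le _)
    cases hU : U 0 with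
    | fin t =>
      rw [hU, pos_ff] at h1
      rw [hU, val_ff] at h2
      omega
    | blk p m =>
      rw [hU, pos_fb] at h1
      rw [hU, val_fb] at h2
      omega
  | blk p Q ih =>
    intro U h h'
    -- classification
    have hcl : ∀ j ≤ n, (∃ s, U j = fin s ∧ p - W ≤ s ∧ s ≤ p) ∨
        (∃ m, U j = blk p m ∧ pos W Q < pos W m ∧ val Q < val m) := by
      intro j hj
      obtain ⟨h1, h2⟩ := h j hj
      cases hU : U j with
      | fin t =>
        rw [hU, pos_bf] at h1
        rw [hU, val_bf] at h2
        exact Or.inl ⟨t, rfl, by omega, h2⟩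
      | blk p' m =>
        rw [hU, pos_bb] at h1
        rw [hU, val_bb] at h2
        right
        rcases h1 with h1 | ⟨h1, h1'⟩
        · rcases h2 with h2 | ⟨h2, h2'⟩
          · omega
          · omega
        · rcases h2 with h2 | ⟨h2, h2'⟩
          · omega
          · subst h1; exact ⟨m, rfl, h1', h2'⟩
    by_cases hall : ∀ j ≤ n, ∃ s, U j = fin s ∧ p - W ≤ s ∧ s ≤ p
    · choose! s hs using hall
      refine ⟨p, s, fun j hj => ⟨(hs j hj).2.1, (hs j hj).2.2, ?_⟩, fun i j hij hj => ?_⟩
      · rw [(hs j hj).1]; rfl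
      · have h1 := (h' i j hij hj).1
        rw [(hs i (by omega)).1, (hs j hj).1, pos_ff] at h1
        exact h1
    · push Not at hall
      obtain ⟨k, hk, hk'⟩ := hall
      have hkm : ∃ m, U k = blk p m ∧ pos W Q < pos W m ∧ val Q < val m := by
        rcases hcl k hk with ⟨s, h1, h2, h3⟩ | h
        · exact absurd (hk' s h1 h2) (by omega)
        · exact h
      obtain ⟨mk, hmk, _, _⟩ := hkm
      have hall' : ∀ j ≤ n, ∃ m, U j = blk p m ∧ pos W Q < pos W m ∧ val Q < val m := by
        intro j hj
        rcases hcl j hj with ⟨s, h1, h2, h3⟩ | h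
        · exfalso
          rcases lt_trichotomy j k with hjk | hjk | hjk
          · have := (h' j k hjk hk).1
            rw [h1, hmk, pos_fb] at this
            omega
          · subst hjk
            rw [h1] at hmk
            cases hmk
          · have := (h' k j hjk hj).2
            rw [h1, hmk, val_fb] at this
            omega
        · exact h
      have : Nonempty M := ⟨fin 0⟩
      choose! m hm using hall'
      obtain ⟨p', s, hs1, hs2⟩ := ih m (fun j hj => (hm j hj).2) (by
        intro i j hij hj
        have h1 := h' i j hij hj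
        rw [(hm i (by omega)).1, (hm j hj).1, pos_bb, val_bb] at h1
        obtain ⟨h1, h2⟩ := h1
        refine ⟨?_, ?_⟩
        · rcases h1 with h1 | h1
          · exact absurd h1 (lt_irrefl _)
          · exact h1.2
        · rcases h2 with h2 | h2
          · exact absurd h2 (lt_irrefl _)
          · exact h2.2)
      refine ⟨p', s, fun j hj => ⟨(hs1 j hj).1, (hs1 j hj).2.1, ?_⟩, hs2⟩
      rw [(hm j hj).1]
      exact (hs1 j hj).2.2

end M

/-! ### standardisation -/

theorem sort_perm {K : Type} [LinearOrder K] {n : ℕ} (g : Fin n → K) (hg : Function.Injective g) :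
    ∃ σ : Equiv.Perm (Fin n), ∀ i j, σ i < σ j ↔ g i < g j := by
  refine ⟨(Tuple.sort g)⁻¹, fun i j => ?_⟩
  have hm : StrictMono (g ∘ Tuple.sort g) :=
    (Tuple.monotone_sort g).strictMono_of_injective (hg.comp (Tuple.sort g).injective)
  have h1 : g i = (g ∘ Tuple.sort g) ((Tuple.sort g)⁻¹ i) := by simp
  have h2 : g j = (g ∘ Tuple.sort g) ((Tuple.sort g)⁻¹ j) := by simp
  rw [h1, h2, hm.lt_iff_lt]

theorem std {T K L : Type} [LinearOrder K] [LinearOrder L] (P : T → K) (V : T → L)
    (hP : Function.Injective P) (hV : Function.Injective V) (F : Set T) (hF : F.Finite) :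
    ∃ (δ : FPerm) (h : Fin δ.1 → T), (∀ i j, i < j ↔ P (h i) < P (h j)) ∧
      (∀ i j, δ.2 i < δ.2 j ↔ V (h i) < V (h j)) ∧ Set.range h = F := by
  classical
  have : Finite F := hF
  obtain ⟨n, ⟨e⟩⟩ := Finite.exists_equiv_fin F
  let f0 : Fin n → T := fun i => (e.symm i : T)
  have hf0 : Function.Injective f0 := Subtype.val_injective.comp e.symm.injective
  let σ1 := Tuple.sort (P ∘ f0)
  let h : Fin n → T := f0 ∘ σ1
  have hinj : Function.Injective h := hf0.comp σ1.injective
  have hm : StrictMono (P ∘ h) :=
    (Tuple.monotone_sort (P ∘ f0)).strictMono_of_injective (hP.comp hinj)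
  obtain ⟨δ, hδ⟩ := sort_perm (V ∘ h) (hV.comp hinj)
  refine ⟨⟨n, δ⟩, h, fun i j => hm.lt_iff_lt.symm, hδ, ?_⟩
  ext x
  constructor
  · rintro ⟨i, rfl⟩
    exact (e.symm (σ1 i)).2
  · intro hx
    refine ⟨σ1.symm (e ⟨x, hx⟩), ?_⟩
    simp [h, f0]

/-! ### ages -/

/-- `f` is an embedding of the permutation `π` into the point set -/
def Into (W : ℕ) (π : FPerm) (f : Fin π.1 → M) : Prop :=
  (∀ i j, i < j ↔ M.pos W (f i) < M.pos W (f j)) ∧ ∀ i j, π.2 i < π.2 j ↔ M.val (f i) < M.val (f j)

/-- the finite patterns of the point set -/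
def Age (W : ℕ) : Set FPerm := {π | ∃ f, Into W π f}

theorem Into.comp {W : ℕ} {a b : FPerm} {f : Fin a.1 → Fin b.1} {g : Fin b.1 → M}
    (hf : IsEmb a b f) (hg : Into W b g) : Into W a (g ∘ f) :=
  ⟨fun i j => (hf.1 i j).trans (hg.1 _ _), fun i j => (hf.2 i j).trans (hg.2 _ _)⟩

theorem Into.se {W : ℕ} {a : FPerm} {f : Fin a.1 → M} {e : M → M}
    (hf : Into W a f) (he : M.SE W e) : Into W a (e ∘ f) :=
  ⟨fun i j => (hf.1 i j).trans (he.1 _ _), fun i j => (hf.2 i j).trans (he.2 _ _)⟩

theorem age_class (W : ℕ) : IsPermClass (Age W) := by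
  rintro a b f hf ⟨g, hg⟩
  exact ⟨g ∘ f, Into.comp hf hg⟩

/-- joint embedding of two embedded permutations -/
theorem joint {W : ℕ} {β γ : FPerm} {f : Fin β.1 → M} {g : Fin γ.1 → M}
    (hf : Into W β f) (hg : Into W γ g) :
    ∃ δ ∈ Age W, ∃ (h : Fin δ.1 → M) (f' : Fin β.1 → Fin δ.1) (g' : Fin γ.1 → Fin δ.1),
      Function.Injective h ∧ IsEmb β δ f' ∧ IsEmb γ δ g' ∧ (∀ i, h (f' i) = f i) ∧
      ∀ i, h (g' i) = g i := by
  obtain ⟨δ, h, h1, h2, h3⟩ := std (M.pos W) M.val (M.pos_inj W) M.val_inj
    (Set.range f ∪ Set.range g) ((Set.finite_range f).union (Set.finite_range g))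
  have hf' : ∀ i, ∃ j, h j = f i := by
    intro i
    have : f i ∈ Set.range h := by rw [h3]; exact Or.inl ⟨i, rfl⟩
    exact this
  have hg' : ∀ i, ∃ j, h j = g i := by
    intro i
    have : g i ∈ Set.range h := by rw [h3]; exact Or.inr ⟨i, rfl⟩
    exact this
  choose f' hf' using hf'
  choose g' hg' using hg'
  have hinj : Function.Injective h := by
    intro i j hij
    rcases lt_trichotomy i j with hlt | heq | hlt
    · have := (h1 i j).1 hlt
      rw [hij] at this
      exact absurd this (lt_irrefl _)
    · exact heq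
    · have := (h1 j i).1 hlt
      rw [hij] at this
      exact absurd this (lt_irrefl _)
  refine ⟨δ, ⟨h, h1, h2⟩, h, f', g', hinj, ⟨fun i j => ?_, fun i j => ?_⟩,
    ⟨fun i j => ?_, fun i j => ?_⟩, hf', hg'⟩
  · rw [hf.1, h1, hf', hf']
  · rw [hf.2, h2, hf', hf']
  · rw [hg.1, h1, hg', hg']
  · rw [hg.2, h2, hg', hg']

theorem age_amalg (W : ℕ) : OneAmalgamable (Age W) := by
  rintro α - hα β ⟨f, hf⟩ γ ⟨g, hg⟩ a b ha hb
  rcases Nat.eq_zero_or_pos α.1 with h0 | h0
  · obtain ⟨δ, hδ, h, f', g', _, hf', hg', _, _⟩ := joint hf hg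
    exact ⟨δ, hδ, f', g', hf', hg', fun i => absurd i.2 (by omega)⟩
  · let z : Fin α.1 := ⟨0, h0⟩
    obtain ⟨e1, e2, he1, he2, he⟩ := M.homog W (f (a z)) (g (b z))
    obtain ⟨δ, hδ, h, f', g', hinj, hf', hg', h1, h2⟩ := joint (hf.se he1) (hg.se he2)
    refine ⟨δ, hδ, f', g', hf', hg', fun i => ?_⟩
    have hi : i = z := Fin.ext (by have := i.2; show i.1 = 0; omega)
    subst hi
    apply hinj
    rw [h1, h2]
    exact he

/-! ### the distinguishing pattern -/

theorem lam (W : ℕ) : ∃ l ∈ Age W, ∀ (W' : ℕ) (f : Fin l.1 → M), Into W' l f →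
    ∃ (q : Fin l.1) (u : ℕ → Fin l.1),
      (∀ j ≤ W, M.pos W' (f q) < M.pos W' (f (u j)) ∧ M.val (f q) < M.val (f (u j))) ∧
      ∀ i j, i < j → j ≤ W → M.pos W' (f (u i)) < M.pos W' (f (u j)) ∧
        M.val (f (u j)) < M.val (f (u i)) := by
  let Q : M := M.blk 0 (M.fin 0)
  let U : ℕ → M := fun j => M.fin ((j : ℤ) - W)
  obtain ⟨l, h, h1, h2, h3⟩ := std (M.pos W) M.val (M.pos_inj W) M.val_inj
    (insert Q (U '' Set.Iic W)) (((Set.finite_Iic W).image U).insert Q)
  refine ⟨l, ⟨h, h1, h2⟩, ?_⟩
  intro W' f hf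
  have hq : ∃ q, h q = Q := by
    have : Q ∈ Set.range h := by rw [h3]; exact Set.mem_insert _ _
    exact this
  obtain ⟨q, hq⟩ := hq
  have hu : ∀ j ≤ W, ∃ i, h i = U j := by
    intro j hj
    have : U j ∈ Set.range h := by rw [h3]; exact Set.mem_insert_of_mem _ ⟨j, hj, rfl⟩
    exact this
  have hu' : ∀ j, ∃ i, j ≤ W → h i = U j := by
    intro j
    by_cases hj : j ≤ W
    · obtain ⟨i, hi⟩ := hu j hj
      exact ⟨i, fun _ => hi⟩
    · exact ⟨q, fun hh => absurd hh hj⟩
  choose u hu using hu'
  refine ⟨q, u, fun j hj => ⟨?_, ?_⟩, fun i j hij hj => ⟨?_, ?_⟩⟩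
  · rw [← hf.1, h1, hq, hu j hj, M.pos_bf]
    omega
  · rw [← hf.2, h2, hq, hu j hj, M.val_bf]
    omega
  · rw [← hf.1, h1, hu i (by omega), hu j hj, M.pos_ff]
    omega
  · rw [← hf.2, h2, hu i (by omega), hu j hj, M.val_ff]
    omega

theorem step_le {n : ℕ} (s : ℕ → ℤ) (c : ℤ) (h : ∀ j, j + 1 ≤ n → s j + c ≤ s (j + 1)) :
    ∀ j ≤ n, s 0 + c * j ≤ s j := by
  intro j
  induction j with
  | zero => intro _; simp
  | succ j ih =>
    intro hj
    have h1 := ih (by omega)
    have h2 := h j hj
    push_cast
    linarith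

theorem age_ne {W W' : ℕ} (h : W < W') : Age W ≠ Age W' := by
  intro heq
  obtain ⟨l, hl, hl'⟩ := lam W'
  rw [← heq] at hl
  obtain ⟨f, hf⟩ := hl
  obtain ⟨q, u, h1, h2⟩ := hl' W f hf
  obtain ⟨p, s, hs1, hs2⟩ := M.key W W' (f q) (fun j => f (u j)) h1 h2
  have := step_le (n := W') s 1 (fun j hj => by have := hs2 j (j + 1) (by omega) hj; omega) W' le_rfl
  have h3 := hs1 0 (Nat.zero_le _)
  have h4 := hs1 W' le_rfl
  have : (W : ℤ) < W' := by exact_mod_cast h
  omega

theorem age_split (W : ℕ) (hW : 1 ≤ W) : Splittable (Age W) := by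
  classical
  refine ⟨2, fun j => {π | ∃ f, Into W π f ∧ ∀ i, M.col (f i) = (j : ℕ)}, by norm_num, ?_, ?_, ?_⟩
  · rintro j a b f hf ⟨g, hg, hc⟩
    exact ⟨g ∘ f, Into.comp hf hg, fun i => hc _⟩
  · rintro π ⟨f, hf⟩
    have hcol : ∀ m : M, ∃ j : Fin 2, M.col m = ((j : ℕ) : ℤ) := by
      intro m
      induction m with
      | fin s =>
        rcases Int.emod_two_eq_zero_or_one s with h | h
        · exact ⟨0, by simp [M.col, h]⟩
        · exact ⟨1, by simp [M.col, h]⟩
      | blk p m ih => exact ih
    choose c hc using hcol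
    refine ⟨fun i => c (f i), fun j => ?_⟩
    obtain ⟨σ, h, h1, h2, h3⟩ := std (fun i : Fin π.1 => i) π.2 (fun _ _ h => h) π.2.injective
      {i | c (f i) = j} (Set.toFinite _)
    have hemb : IsEmb σ π h := ⟨h1, h2⟩
    refine ⟨σ, ⟨f ∘ h, Into.comp hemb hf, fun i => ?_⟩, h, hemb, h3⟩
    have hi : h i ∈ {i | c (f i) = j} := by rw [← h3]; exact ⟨i, rfl⟩
    have hi' : c (f (h i)) = j := hi
    show M.col (f (h i)) = _
    rw [hc, hi']
  · intro j hsub
    obtain ⟨l, hl, hl'⟩ := lam W
    obtain ⟨f, hf, hcf⟩ := hsub hl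
    obtain ⟨q, u, h1, h2⟩ := hl' W f hf
    obtain ⟨p, s, hs1, hs2⟩ := M.key W W (f q) (fun j => f (u j)) h1 h2
    have hstep : ∀ i, i + 1 ≤ W → s i + 2 ≤ s (i + 1) := by
      intro i hi
      have e1 := hs2 i (i + 1) (by omega) hi
      have e2 := (hs1 i (by omega)).2.2
      have e3 := (hs1 (i + 1) hi).2.2
      have e4 := hcf (u i)
      have e5 := hcf (u (i + 1))
      omega
    have h5 := step_le (n := W) s 2 hstep W le_rfl
    have h3 := hs1 0 (Nat.zero_le _)
    have h4 := hs1 W le_rfl
    have : (1 : ℤ) ≤ W := by exact_mod_cast hW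
    omega

theorem main : Set.Infinite {C : Set FPerm | IsPermClass C ∧ OneAmalgamable C ∧ Splittable C} := by
  apply Set.infinite_of_injective_forall_mem (f := fun W : ℕ => Age (W + 1))
  · intro a b hab
    by_contra hne
    rcases lt_or_gt_of_ne hne with h | h
    · exact age_ne (by omega : a + 1 < b + 1) hab
    · exact age_ne (by omega : b + 1 < a + 1) hab.symm
  · intro W
    exact ⟨age_class _, age_amalg _, age_split _ (by omega)⟩

end Pool.Agent.Q281.PA
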